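import Pool.Agent.WFP.Reduce

/-!
# Countable reduction for the weight of a free product
-/

set_option autoImplicit false

namespace Pool.Agent.H75SymW

open Monoid Monoid.CoprodI Pool.Agent.WFP

theorem countable_closure {P : Type*} [Group P] (T : Set P) (hT : T.Countable) :
    (Subgroup.closure T : Set P).Countable := by
  have : Countable T := hT.to_subtype
  have h1 : Countable (FreeGroup T) := by
    unfold FreeGroup
    infer_instance
  have h2 : (Subgroup.closure T : Set P) ⊆
      Set.range (FreeGroup.lift (fun t : T => (t : P))) := by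
    intro x hx
    have h3 : Subgroup.closure T ≤ (FreeGroup.lift (fun t : T => (t : P))).range := by
      rw [Subgroup.closure_le]
      intro t ht
      exact ⟨FreeGroup.of ⟨t, ht⟩, by simp⟩
    exact h3 hx
  exact (Set.countable_range _).mono h2

theorem countable_iSup {P : Type*} [Group P] {α : Type*} [Countable α] (K : α → Subgroup P)
    (hK : ∀ a, (K a : Set P).Countable) : ((⨆ a, K a : Subgroup P) : Set P).Countable := by
  rw [Subgroup.iSup_eq_closure]
  exact countable_closure _ (Set.countable_iUnion hK)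

theorem step {ι : Type*} [Countable ι] {L : ι → Type*} [∀ i, Group (L i)]
    (S : Set (CoprodI L)) (hS : Subgroup.normalClosure S = ⊤) (B : ∀ i, Subgroup (L i))
    (hB : ∀ i, (B i : Set (L i)).Countable) :
    ∃ C : ∀ i, Subgroup (L i), B ≤ C ∧ (∀ i, (C i : Set (L i)).Countable) ∧
      ∀ i, ∀ b ∈ B i, (of b : CoprodI L) ∈ NC S C := by
  choose W hW hWx using fun x : CoprodI L => exists_NC S (x := x) (by rw [hS]; trivial)
  have hBc : ∀ i, Countable (B i) := fun i => (hB i).to_subtype
  let F : Option (Σ i, B i) → ∀ i, Subgroup (L i) := fun p =>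
    match p with
    | none => B
    | some p => W (of (p.2 : L p.1))
  refine ⟨fun i => ⨆ p, F p i, fun i => le_iSup (fun p => F p i) none, ?_, ?_⟩
  · intro i
    apply countable_iSup
    rintro (_ | p)
    · exact hB i
    · obtain ⟨T, hT⟩ := hW (of (p.2 : L p.1)) i
      show ((W (of (p.2 : L p.1)) i : Subgroup (L i)) : Set (L i)).Countable
      rw [← hT]
      exact countable_closure _ T.countable_toSet
  · intro i b hb
    exact NC_mono S (fun j => le_iSup (fun p => F p j) (some ⟨i, b, hb⟩)) (hWx (of b))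

theorem closing {ι : Type*} [Countable ι] {L : ι → Type*} [∀ i, Group (L i)]
    (S : Set (CoprodI L)) (hS : Subgroup.normalClosure S = ⊤) (B₀ : ∀ i, Subgroup (L i))
    (hB₀ : ∀ i, (B₀ i : Set (L i)).Countable) :
    ∃ B : ∀ i, Subgroup (L i), B₀ ≤ B ∧ (∀ i, (B i : Set (L i)).Countable) ∧
      ∀ i, ∀ b ∈ B i, (of b : CoprodI L) ∈ NC S B := by
  choose nxt h1 h2 h3 using fun B : {B : ∀ i, Subgroup (L i) //
    ∀ i, (B i : Set (L i)).Countable} => step S hS B.1 B.2
  let seq : ℕ → {B : ∀ i, Subgroup (L i) // ∀ i, (B i : Set (L i)).Countable} :=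
    fun k => Nat.rec ⟨B₀, hB₀⟩ (fun _ B => ⟨nxt B, h2 B⟩) k
  have hs : ∀ k, (seq (k + 1)).1 = nxt (seq k) := fun k => rfl
  have hmono : Monotone (fun k => (seq k).1) := by
    apply monotone_nat_of_le_succ
    intro k
    rw [hs]
    exact h1 _
  refine ⟨fun i => ⨆ k, (seq k).1 i, fun i => le_iSup (fun k => (seq k).1 i) 0, ?_, ?_⟩
  · intro i
    exact countable_iSup _ (fun k => (seq k).2 i)
  · intro i b hb
    have hd : Directed (· ≤ ·) (fun k => (seq k).1 i) := by
      apply Monotone.directed_le
      intro a b hab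
      exact hmono hab i
    obtain ⟨k, hk⟩ := (Subgroup.mem_iSup_of_directed hd).1 hb
    have h4 := h3 (seq k) i b hk
    refine NC_mono S ?_ h4
    intro j
    exact le_iSup (fun k => (seq k).1 j) (k + 1)

theorem countable_reduction {ι : Type*} [Finite ι] {L : ι → Type*} [∀ i, Group (L i)]
    [∀ i, Nontrivial (L i)] (S : Finset (CoprodI L))
    (hS : Subgroup.normalClosure (S : Set (CoprodI L)) = ⊤) :
    ∃ B : ∀ i, Subgroup (L i), (∀ i, Countable (B i)) ∧ (∀ i, Nontrivial (B i)) ∧
      ∃ S' : Finset (CoprodI (fun i => B i)), S'.card ≤ S.card ∧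
        Subgroup.normalClosure (S' : Set (CoprodI (fun i => B i))) = ⊤ := by
  classical
  choose e he using fun j => exists_ne (1 : L j)
  obtain ⟨A₀, hA₀, hSA₀⟩ := exists_fg_finset S (fun s B => s ∈ (inc B).range)
    (fun a B C h hB => inc_range_mono h hB) (fun s _ => exists_fg s)
  let A : ∀ j, Subgroup (L j) := fun j => A₀ j ⊔ Subgroup.zpowers (e j)
  have hA : ∀ j, (A j).FG := fun j => (hA₀ j).sup (by
    rw [Subgroup.zpowers_eq_closure]; exact ⟨{e j}, by simp⟩)
  have hSA : ∀ s ∈ S, s ∈ (inc A).range := fun s hs =>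
    inc_range_mono (fun _ => le_sup_left) (hSA₀ s hs)
  have heA : ∀ j, e j ∈ A j := fun j =>
    (le_sup_right : Subgroup.zpowers (e j) ≤ A j) (Subgroup.mem_zpowers _)
  obtain ⟨B, hAB, hBc, hB⟩ := closing (S : Set (CoprodI L)) hS A (fun j => by
    obtain ⟨T, hT⟩ := hA j
    rw [← hT]
    exact countable_closure _ T.countable_toSet)
  have hSB : ∀ s ∈ S, s ∈ (inc B).range := fun s hs => inc_range_mono hAB (hSA s hs)
  refine ⟨B, fun i => (hBc i).to_subtype, fun i => ?_, ?_⟩
  · refine ⟨⟨⟨e i, hAB i (heA i)⟩, 1, ?_⟩⟩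
    intro h
    exact he i (congrArg Subtype.val h)
  let S' : Finset (CoprodI (fun j => B j)) := S.preimage (inc B) (inc_injective B).injOn
  have hcard : S'.card ≤ S.card := by
    have h1 : (S'.image (inc B)).card = S'.card :=
      Finset.card_image_of_injective _ (inc_injective B)
    rw [← h1]
    apply Finset.card_le_card
    intro x hx
    obtain ⟨y, hy, rfl⟩ := Finset.mem_image.1 hx
    exact Finset.mem_preimage.1 hy
  have hNC : ∀ x : CoprodI (fun j => B j), inc B x ∈ NC (S : Set (CoprodI L)) B →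
      x ∈ Subgroup.normalClosure (S' : Set (CoprodI (fun j => B j))) := by
    intro x hx
    have hle : NC (S : Set (CoprodI L)) B ≤
        (Subgroup.normalClosure (S' : Set (CoprodI (fun j => B j)))).map (inc B) := by
      unfold NC
      rw [Subgroup.closure_le]
      rintro y ⟨f, ⟨f', rfl⟩, s, hs, rfl⟩
      obtain ⟨s', hs'⟩ := hSB s hs
      refine ⟨f' * s' * f'⁻¹, ?_, ?_⟩
      · apply Subgroup.normalClosure_normal.conj_mem
        apply Subgroup.subset_normalClosure
        rw [Finset.mem_coe, Finset.mem_preimage, hs']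
        exact hs
      · simp [hs']
    obtain ⟨x', hx', hxx'⟩ := hle hx
    rw [← inc_injective B hxx']
    exact hx'
  refine ⟨S', hcard, ?_⟩
  rw [eq_top_iff]
  intro x _
  apply hNC
  have hr : (inc B).range ≤ NC (S : Set (CoprodI L)) B := by
    apply lift_range_le
    intro j
    rintro _ ⟨b, rfl⟩
    exact hB j b b.2
  exact hr ⟨x, rfl⟩

end Pool.Agent.H75SymW
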