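import Mathlib

/-!
# Elements of regularly embedded countable groups normally generate the symmetric group
-/

set_option autoImplicit false

namespace Pool.Agent.H75SymW

open Equiv

theorem comm_mem {X Y : Type*} (N : Subgroup (Perm X)) (hN : N.Normal) (σ : Perm X)
    (hσ : σ ∈ N) {p : X → Prop} [DecidablePred p] (e : Y ≃ Subtype p)
    (hp : ∀ x, p x → ¬ p (σ x)) (a b : Perm Y) :
    (Perm.extendDomainHom e) (a⁻¹ * b * a * b⁻¹) ∈ N := by
  set E := Perm.extendDomainHom e with hE
  have hEfix : ∀ (c : Perm Y) x, ¬ p x → E c x = x := by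
    intro c x hx
    exact Perm.extendDomain_apply_not_subtype c e hx
  have hdis : ∀ c d : Perm Y, Commute (σ * E c * σ⁻¹) (E d) := by
    intro c d
    apply Perm.Disjoint.commute
    intro x
    by_cases hx : p x
    · left
      have h1 : ¬ p (σ⁻¹ x) := by
        intro h
        apply hp _ h
        simpa using hx
      simp only [Perm.mul_apply]
      rw [hEfix c _ h1]
      simp
    · right
      exact hEfix d x hx
  have hc : σ * E a * σ⁻¹ * (E a)⁻¹ ∈ N := by
    have : σ * (E a * σ⁻¹ * (E a)⁻¹) ∈ N := N.mul_mem hσ (hN.conj_mem _ (N.inv_mem hσ) _)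
    simpa [mul_assoc] using this
  have hc2 : (σ * E a * σ⁻¹ * (E a)⁻¹) * (E b * (σ * E a * σ⁻¹ * (E a)⁻¹)⁻¹ * (E b)⁻¹) ∈ N :=
    N.mul_mem hc (hN.conj_mem _ (N.inv_mem hc) _)
  have key : (σ * E a * σ⁻¹ * (E a)⁻¹) * (E b * (σ * E a * σ⁻¹ * (E a)⁻¹)⁻¹ * (E b)⁻¹)
      = E (a⁻¹ * b * a * b⁻¹) := by
    have h3 : Commute (σ * E a * σ⁻¹) (E (a⁻¹ * b * a)) := hdis a _
    set u := σ * E a * σ⁻¹ with hu
    rw [map_mul, map_mul, map_inv] at h3
    rw [map_mul, map_mul, map_mul, map_inv, map_inv]
    calc u * (E a)⁻¹ * (E b * (u * (E a)⁻¹)⁻¹ * (E b)⁻¹)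
        = u * ((E a)⁻¹ * E b * E a) * u⁻¹ * (E b)⁻¹ := by group
      _ = ((E a)⁻¹ * E b * E a) * u * u⁻¹ * (E b)⁻¹ := by rw [h3.eq]
      _ = _ := by group
  rw [← key]; exact hc2

/-- `π` on the layers `k` with `q k` -/
def lay (q : ℤ → Prop) [DecidablePred q] (π : Perm ℕ) : Perm (ℤ × ℕ) :=
  Equiv.prodShear (Equiv.refl ℤ) (fun k => if q k then π else Equiv.refl ℕ)

/-- the shift -/
def shf : Perm (ℤ × ℕ) := Equiv.prodShear (Equiv.addRight 1) (fun _ => Equiv.refl ℕ)

theorem lay_comm (π : Perm ℕ) :
    lay (fun k => k = 0) π = lay (fun k => 0 ≤ k) π * shf * (lay (fun k => 0 ≤ k) π)⁻¹ * shf⁻¹ := by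
  have h : lay (fun k => 0 ≤ k) π * shf = lay (fun k => k = 0) π * (shf * lay (fun k => 0 ≤ k) π) := by
    apply Equiv.ext
    rintro ⟨k, n⟩
    simp only [Perm.mul_apply, lay, shf, Equiv.prodShear_apply, Equiv.refl_apply,
      Equiv.coe_addRight]
    rcases lt_trichotomy (k + 1) 0 with h | h | h
    · rw [if_neg (by omega), if_neg (by omega), if_neg (by omega)]; rfl
    · rw [if_pos (by omega), if_pos (by omega), if_neg (by omega)]; rfl
    · rw [if_pos (by omega), if_neg (by omega), if_pos (by omega)]; rfl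
  have h2 : lay (fun k => k = 0) π = lay (fun k => 0 ≤ k) π * shf * (shf * lay (fun k => 0 ≤ k) π)⁻¹ := by
    rw [h]; group
  rw [h2]; group

theorem exists_support_mem {X : Type*} (N : Subgroup (Perm X)) (hN : N.Normal) (σ : Perm X)
    (hσ : σ ∈ N) {p : X → Prop} (e : ℤ × ℕ ≃ Subtype p)
    (hp : ∀ x, p x → ¬ p (σ x)) (τ : Perm X)
    (hτ : ∀ x, x ∉ Set.range (fun n : ℕ => ((e (0, n) : Subtype p) : X)) → τ x = x) : τ ∈ N := by
  classical
  set f : ℕ → X := fun n : ℕ => ((e (0, n) : Subtype p) : X) with hf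
  have hfi : Function.Injective f := by
    intro a b hab
    have := e.injective (Subtype.ext hab)
    simpa using this
  have hmem : ∀ x, τ x ∈ Set.range f ↔ x ∈ Set.range f := by
    intro x
    constructor
    · intro h
      by_contra hx
      rw [hτ x hx] at h
      exact hx h
    · intro h
      by_contra hx
      have := hτ _ hx
      have h2 := τ.injective this
      rw [h2] at hx
      exact hx h
  let e0 : ℕ ≃ Set.range f := Equiv.ofInjective f hfi
  let π : Perm ℕ := (e0.trans ((τ.subtypePerm (p := fun x => x ∈ Set.range f) hmem))).trans e0.symm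
  have hπ : ∀ n, f (π n) = τ (f n) := by
    intro n
    have : (e0 (π n) : X) = τ (f n) := by
      simp only [π, Equiv.trans_apply, Equiv.apply_symm_apply]
      rfl
    exact this
  have h1 : (Perm.extendDomainHom e) (lay (fun k => k = 0) π) ∈ N := by
    rw [lay_comm]
    have := comm_mem N hN σ hσ e hp (lay (fun k => 0 ≤ k) π)⁻¹ shf
    simpa using this
  have h2 : (Perm.extendDomainHom e) (lay (fun k => k = 0) π) = τ := by
    apply Equiv.ext
    intro x
    show (lay (fun k => k = 0) π).extendDomain e x = τ x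
    by_cases hx : p x
    · obtain ⟨⟨k, n⟩, hkn⟩ := e.surjective ⟨x, hx⟩
      have hx2 : x = (e (k, n) : X) := by rw [hkn]
      rw [hx2, Perm.extendDomain_apply_image]
      by_cases hk : k = 0
      · subst hk
        have : lay (fun k => k = 0) π (0, n) = (0, π n) := by
          simp [lay, Equiv.prodShear_apply]
        rw [this]
        exact hπ n
      · have : lay (fun k => k = 0) π (k, n) = (k, n) := by
          simp [lay, Equiv.prodShear_apply, hk]
        rw [this]
        symm
        apply hτ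
        rintro ⟨m, hm⟩
        have := e.injective (Subtype.ext hm)
        simp only [Prod.mk.injEq] at this
        exact hk this.1.symm
    · rw [Perm.extendDomain_apply_not_subtype _ _ hx]
      symm
      apply hτ
      rintro ⟨m, hm⟩
      apply hx
      rw [← hm]
      exact (e (0, m)).2
  rw [← h2]; exact h1

theorem exists_perm_image {X : Type*} [Countable X] (B C : Set X) (hB : B.Infinite)
    (hB' : Bᶜ.Infinite) (hC : C.Infinite) (hC' : Cᶜ.Infinite) :
    ∃ κ : Perm X, ∀ x, κ x ∈ C ↔ x ∈ B := by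
  classical
  have := hB.to_subtype
  have := hB'.to_subtype
  have := hC.to_subtype
  have := hC'.to_subtype
  obtain ⟨e1⟩ := nonempty_equiv_of_countable (α := B) (β := C)
  obtain ⟨e2⟩ := nonempty_equiv_of_countable (α := (Bᶜ : Set X)) (β := (Cᶜ : Set X))
  refine ⟨(Equiv.Set.sumCompl B).symm.trans ((Equiv.sumCongr e1 e2).trans (Equiv.Set.sumCompl C)),
    fun x => ?_⟩
  by_cases hx : x ∈ B
  · simp [hx, Equiv.Set.sumCompl_symm_apply_of_mem hx]
  · have : ((e2 ⟨x, hx⟩ : (Cᶜ : Set X)) : X) ∉ C := (e2 ⟨x, hx⟩).2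
    simp [hx, Equiv.Set.sumCompl_symm_apply_of_notMem hx, this]

theorem mem_of_fix {X : Type*} [Countable X] (N : Subgroup (Perm X)) (hN : N.Normal)
    (B : Set X) (hB : B.Infinite) (hB' : Bᶜ.Infinite)
    (h : ∀ τ : Perm X, (∀ x, x ∉ B → τ x = x) → τ ∈ N) (τ : Perm X)
    (hτ : {x | τ x = x}.Infinite) : τ ∈ N := by
  let f := hτ.natEmbedding
  have hfm : ∀ n, τ (f n : X) = f n := fun n => (f n).2
  have hfi : Function.Injective (fun n => (f n : X)) :=
    Subtype.val_injective.comp f.injective
  set D : Set X := Set.range (fun n => (f (2 * n) : X)) with hD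
  have hD1 : D.Infinite := by
    apply Set.infinite_range_of_injective
    intro a b hab
    have := hfi hab
    omega
  have hD2 : Dᶜ.Infinite := by
    have : (Set.range (fun n => (f (2 * n + 1) : X))).Infinite := by
      apply Set.infinite_range_of_injective
      intro a b hab
      have := hfi hab
      omega
    apply this.mono
    rintro _ ⟨n, rfl⟩ ⟨m, hm⟩
    have := hfi hm
    omega
  obtain ⟨κ, hκ⟩ := exists_perm_image B Dᶜ hB hB' hD2 (by rwa [compl_compl])
  have h1 : κ⁻¹ * τ * κ ∈ N := by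
    apply h
    intro x hx
    have h2 : κ x ∉ Dᶜ := fun h3 => hx ((hκ x).1 h3)
    have h3 : κ x ∈ D := by simpa using h2
    obtain ⟨n, hn⟩ := h3
    have h4 : τ (κ x) = κ x := by
      rw [← hn]; exact hfm _
    simp [Perm.mul_apply, h4]
  have h2 := hN.conj_mem _ h1 κ
  have h3 : κ * (κ⁻¹ * τ * κ) * κ⁻¹ = τ := by group
  rwa [h3] at h2

theorem all_mem {X : Type*} [Infinite X] (N : Subgroup (Perm X))
    (h : ∀ τ : Perm X, {x | τ x = x}.Infinite → τ ∈ N) (π : Perm X) : π ∈ N := by
  classical
  by_cases hπ : {x | π x = x}.Infinite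
  · exact h π hπ
  rw [Set.not_infinite] at hπ
  obtain ⟨f, hf0, hf⟩ := exists_seq_of_forall_finset_exists (α := X) (fun x => π x ≠ x)
    (fun x y => y ≠ x ∧ y ≠ π x ∧ π y ≠ x) (by
      intro s _
      have hfin : ((s : Set X) ∪ (s.image π : Finset X) ∪ (s.image π.symm : Finset X)
        ∪ {x | π x = x}).Finite :=
        (((s.finite_toSet).union (Finset.finite_toSet _)).union (Finset.finite_toSet _)).union hπ
      obtain ⟨y, hy⟩ := hfin.exists_notMem
      simp only [Set.mem_union, not_or] at hy
      obtain ⟨⟨⟨h1, h2⟩, h3⟩, h4⟩ := hy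
      refine ⟨y, h4, fun x hx => ⟨?_, ?_, ?_⟩⟩
      · rintro rfl
        exact h1 hx
      · rintro rfl
        exact h2 (Finset.mem_coe.2 (Finset.mem_image_of_mem _ hx))
      · rintro rfl
        apply h3
        apply Finset.mem_coe.2
        rw [Finset.mem_image]
        exact ⟨π y, hx, by simp⟩)
  have hne : ∀ m n, f n ≠ π (f m) := by
    intro m n
    rcases lt_trichotomy m n with h | h | h
    · exact (hf m n h).2.1
    · subst h; exact fun h => hf0 _ h.symm
    · exact fun h' => (hf n m h).2.2 h'.symm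
  have hinj : Function.Injective f := by
    intro m n hmn
    rcases lt_trichotomy m n with h | h | h
    · exact absurd hmn.symm (hf m n h).1
    · exact h
    · exact absurd hmn (hf n m h).1
  set A : Set X := Set.range (fun n => f (2 * n)) with hA
  have hA1 : ∀ x, x ∈ A → π x ∉ A := by
    rintro _ ⟨n, rfl⟩ ⟨m, hm⟩
    exact hne _ _ hm
  let t : X → X := fun x => if x ∈ A then π x else if π.symm x ∈ A then π.symm x else x
  have htA : ∀ x, x ∈ A → t x = π x := fun x hx => by simp only [t]; rw [if_pos hx]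
  have htA' : ∀ x, x ∉ A → π.symm x ∈ A → t x = π.symm x := fun x hx hx' => by
    simp only [t]; rw [if_neg hx, if_pos hx']
  have htA'' : ∀ x, x ∉ A → π.symm x ∉ A → t x = x := fun x hx hx' => by
    simp only [t]; rw [if_neg hx, if_neg hx']
  have hπA : ∀ x, x ∈ A → t (π x) = x := by
    intro x hx
    rw [htA' _ (hA1 x hx) (by simpa using hx)]; simp
  have hinv : Function.Involutive t := by
    intro x
    by_cases hx : x ∈ A
    · rw [htA x hx, hπA x hx]
    · by_cases hx' : π.symm x ∈ A
      · rw [htA' x hx hx', htA _ hx']; simp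
      · rw [htA'' x hx hx', htA'' x hx hx']
  have h1 : hinv.toPerm t ∈ N := by
    apply h
    have : (Set.range (fun n => f (2 * n + 1))).Infinite := by
      apply Set.infinite_range_of_injective
      intro a b hab
      have := hinj hab
      omega
    apply this.mono
    rintro _ ⟨n, rfl⟩
    apply htA''
    · rintro ⟨m, hm⟩
      have := hinj hm
      omega
    · rintro ⟨m, hm⟩
      have hm' : f (2 * m) = π.symm (f (2 * n + 1)) := hm
      apply hne (2 * m) (2 * n + 1)
      rw [hm']; simp
  have h2 : hinv.toPerm t * π ∈ N := by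
    apply h
    have : A.Infinite := by
      apply Set.infinite_range_of_injective
      intro a b hab
      have := hinj hab
      omega
    apply this.mono
    intro x hx
    exact hπA x hx
  have h3 : π = (hinv.toPerm t)⁻¹ * (hinv.toPerm t * π) := by group
  rw [h3]
  exact N.mul_mem (N.inv_mem h1) h2

/-- left multiplication on `H × ℕ` -/
def act (H : Type*) [Group H] : H →* Perm (H × ℕ) where
  toFun g := Equiv.prodCongr (Equiv.mulLeft g) (Equiv.refl ℕ)
  map_one' := by ext x <;> simp
  map_mul' a b := by ext x <;> simp [mul_assoc]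

theorem act_top (H : Type*) [Group H] [Countable H] (h : H) (hh : h ≠ 1)
    (N : Subgroup (Perm (H × ℕ))) (hN : N.Normal) (hm : act H h ∈ N) : N = ⊤ := by
  classical
  have hp : ∀ x : H × ℕ, x.1 = 1 → ¬ (act H h x).1 = 1 := by
    rintro ⟨a, n⟩ ha
    simp only at ha
    subst ha
    simpa [act] using hh
  have hinf : Infinite {x : H × ℕ // x.1 = 1} :=
    Infinite.of_injective (fun n : ℕ => (⟨(1, n), rfl⟩ : {x : H × ℕ // x.1 = 1})) (by
      intro a b hab
      simpa using hab)
  obtain ⟨e⟩ := nonempty_equiv_of_countable (α := ℤ × ℕ) (β := {x : H × ℕ // x.1 = 1})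
  have h1 := exists_support_mem N hN (act H h) hm e hp
  set f : ℕ → H × ℕ := fun n : ℕ => ((e (0, n) : {x : H × ℕ // x.1 = 1}) : H × ℕ) with hf
  have hB : (Set.range f).Infinite := by
    apply Set.infinite_range_of_injective
    intro a b hab
    have := e.injective (Subtype.ext hab)
    simpa using this
  have hB' : (Set.range f)ᶜ.Infinite := by
    have : (Set.range (fun n : ℕ => ((e (1, n) : {x : H × ℕ // x.1 = 1}) : H × ℕ))).Infinite := by
      apply Set.infinite_range_of_injective
      intro a b hab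
      have := e.injective (Subtype.ext hab)
      simpa using this
    apply this.mono
    rintro _ ⟨n, rfl⟩ ⟨m, hm⟩
    have := e.injective (Subtype.ext hm)
    simp at this
  have h2 := mem_of_fix N hN (Set.range f) hB hB' h1
  rw [eq_top_iff]
  intro π _
  exact all_mem N h2 π

theorem exists_hom (H : Type*) [Group H] [Countable H] :
    ∃ φ : H →* Perm ℕ, ∀ h, h ≠ 1 → ∀ N : Subgroup (Perm ℕ), N.Normal → φ h ∈ N → N = ⊤ := by
  obtain ⟨e⟩ := nonempty_equiv_of_countable (α := H × ℕ) (β := ℕ)
  refine ⟨(Equiv.permCongrHom e).toMonoidHom.comp (act H), ?_⟩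
  intro h hh N hN hm
  have h1 : N.comap (Equiv.permCongrHom e).toMonoidHom = ⊤ := by
    apply act_top H h hh _ (hN.comap _)
    exact hm
  rw [eq_top_iff]
  intro π _
  have : (Equiv.permCongrHom e).symm π ∈ N.comap (Equiv.permCongrHom e).toMonoidHom := by
    rw [h1]; trivial
  have h2 : (Equiv.permCongrHom e) ((Equiv.permCongrHom e).symm π) ∈ N := this
  rwa [MulEquiv.apply_symm_apply] at h2

end Pool.Agent.H75SymW
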