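import Pool.Agent.WFP.Reduce
import Pool.Agent.helper75.SymW.Sym
import Pool.Agent.helper75.SymW.Ctb

set_option autoImplicit false

namespace Pool.Agent.H75SymW

open Monoid Monoid.CoprodI Equiv Pool.Agent.WFP

theorem coprod_top {ι : Type*} {M : ι → Type*} [∀ i, Group (M i)] (K : Subgroup (CoprodI M))
    (h : ∀ i (m : M i), of m ∈ K) : K = ⊤ := by
  rw [eq_top_iff]
  intro x _
  induction x using CoprodI.induction_on with
  | one => exact K.one_mem
  | of i m => exact h i m
  | mul a b ha hb => exact K.mul_mem (ha trivial) (hb trivial)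

theorem to_perm {n : ℕ} (G : Fin n → Type*) [∀ i, Group (G i)] [∀ i, Nontrivial (G i)]
    [∀ i, Countable (G i)] (S : Finset (CoprodI G))
    (hS : Subgroup.normalClosure (S : Set (CoprodI G)) = ⊤) :
    ∃ S' : Finset (CoprodI (fun _ : Fin n => Perm ℕ)), S'.card ≤ S.card ∧
      Subgroup.normalClosure (S' : Set (CoprodI (fun _ : Fin n => Perm ℕ))) = ⊤ := by
  classical
  obtain ⟨φ, hφ⟩ := exists_hom (∀ i, G i)
  let ψ : ∀ i, G i →* Perm ℕ := fun i => φ.comp (MonoidHom.mulSingle G i)
  let Ψ : CoprodI G →* CoprodI (fun _ : Fin n => Perm ℕ) :=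
    lift (fun i => (of (M := fun _ : Fin n => Perm ℕ) (i := i)).comp (ψ i))
  refine ⟨S.image Ψ, Finset.card_image_le, ?_⟩
  set K := Subgroup.normalClosure ((S.image Ψ : Finset _) : Set (CoprodI (fun _ : Fin n => Perm ℕ)))
    with hK
  have hKn : K.Normal := Subgroup.normalClosure_normal
  have h1 : K.comap Ψ = ⊤ := by
    rw [eq_top_iff, ← hS]
    have : (K.comap Ψ).Normal := hKn.comap _
    apply Subgroup.normalClosure_le_normal
    intro s hs
    exact Subgroup.subset_normalClosure (Finset.mem_coe.2 (Finset.mem_image_of_mem _ hs))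
  apply coprod_top
  intro i
  have h2 : K.comap (of (M := fun _ : Fin n => Perm ℕ) (i := i)) = ⊤ := by
    obtain ⟨g, hg⟩ := exists_ne (1 : G i)
    apply hφ (MonoidHom.mulSingle G i g) _ _ (hKn.comap _)
    · have h3 : of g ∈ K.comap Ψ := by rw [h1]; trivial
      have h4 : Ψ (of g) ∈ K := h3
      have h5 : Ψ (of g) = of (M := fun _ : Fin n => Perm ℕ) (i := i) (ψ i g) := by
        simp [Ψ]
      rw [h5] at h4
      exact h4
    · intro h
      apply hg
      have := congrFun h i
      simpa using this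
  intro m
  have : m ∈ K.comap (of (M := fun _ : Fin n => Perm ℕ) (i := i)) := by rw [h2]; trivial
  exact this

theorem drop {n : ℕ} (P : Type) [Group P] (S : Finset (CoprodI (fun _ : Fin (n + 1) => P)))
    (hS : Subgroup.normalClosure (S : Set (CoprodI (fun _ : Fin (n + 1) => P))) = ⊤) :
    ∃ S' : Finset (CoprodI (fun _ : Fin n => P)), S'.card ≤ S.card ∧
      Subgroup.normalClosure (S' : Set (CoprodI (fun _ : Fin n => P))) = ⊤ := by
  classical
  let D : CoprodI (fun _ : Fin (n + 1) => P) →* CoprodI (fun _ : Fin n => P) :=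
    lift (fun i : Fin (n + 1) =>
      if h : i.val < n then of (M := fun _ : Fin n => P) (i := ⟨i.val, h⟩) else 1)
  refine ⟨S.image D, Finset.card_image_le, ?_⟩
  set K := Subgroup.normalClosure ((S.image D : Finset _) : Set (CoprodI (fun _ : Fin n => P)))
    with hK
  have hKn : K.Normal := Subgroup.normalClosure_normal
  have h1 : K.comap D = ⊤ := by
    rw [eq_top_iff, ← hS]
    have : (K.comap D).Normal := hKn.comap _
    apply Subgroup.normalClosure_le_normal
    intro s hs
    exact Subgroup.subset_normalClosure (Finset.mem_coe.2 (Finset.mem_image_of_mem _ hs))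
  apply coprod_top
  intro i m
  have h3 : of (M := fun _ : Fin (n + 1) => P) (i := i.castSucc) m ∈ K.comap D := by
    rw [h1]; trivial
  have h4 : D (of (M := fun _ : Fin (n + 1) => P) (i := i.castSucc) m) ∈ K := h3
  have h5 : D (of (M := fun _ : Fin (n + 1) => P) (i := i.castSucc) m)
      = of (M := fun _ : Fin n => P) (i := i) m := by
    simp [D]
  rw [h5] at h4
  exact h4

/-- The free product of `n` copies of `Sym(ℕ)` has the least weight among all free products of
`n` nontrivial groups. -/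
theorem least {n : ℕ} (G : Fin n → Type*) [∀ i, Group (G i)] [∀ i, Nontrivial (G i)]
    (S : Finset (CoprodI G)) (hS : Subgroup.normalClosure (S : Set (CoprodI G)) = ⊤) :
    ∃ S' : Finset (CoprodI (fun _ : Fin n => Perm ℕ)), S'.card ≤ S.card ∧
      Subgroup.normalClosure (S' : Set (CoprodI (fun _ : Fin n => Perm ℕ))) = ⊤ := by
  obtain ⟨B, hBc, hBn, S₁, hS₁, hS₁'⟩ := countable_reduction S hS
  obtain ⟨S₂, hS₂, hS₂'⟩ := to_perm (fun i => B i) S₁ hS₁'
  exact ⟨S₂, hS₂.trans hS₁, hS₂'⟩

/-- The weight problem for free products is the weight problem for the free powers of `Sym(ℕ)`. -/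
theorem main :
    (∀ (n : ℕ) (G : Fin n → Type) [∀ i, Group (G i)] [∀ i, Nontrivial (G i)]
      (S : Finset (Monoid.CoprodI G)),
      Subgroup.normalClosure (S : Set (Monoid.CoprodI G)) = ⊤ → n ≤ 2 * S.card) ↔
    ∀ (m : ℕ) (S : Finset (Monoid.CoprodI (fun _ : Fin (2 * m + 1) => Equiv.Perm ℕ))),
      Subgroup.normalClosure
        (S : Set (Monoid.CoprodI (fun _ : Fin (2 * m + 1) => Equiv.Perm ℕ))) = ⊤ →
      m < S.card := by
  constructor
  · intro h m S hS
    have := h (2 * m + 1) (fun _ => Equiv.Perm ℕ) S hS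
    omega
  · intro h n G _ _ S hS
    obtain ⟨S₂, hS₂, hS₂'⟩ := least G S hS
    rcases Nat.even_or_odd' n with ⟨m, rfl | rfl⟩
    · rcases m with _ | m
      · omega
      · obtain ⟨S₃, hS₃, hS₃'⟩ := drop (n := 2 * m + 1) (Equiv.Perm ℕ) S₂ hS₂'
        have := h m S₃ hS₃'
        omega
    · have := h m S₂ hS₂'
      omega

end Pool.Agent.H75SymW
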